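import Mathlib
import Pool.Agent.Lib.lead.Bpa5

set_option autoImplicit false

namespace Pool.Agent.Results.MP_f6b51f_lc.Positive
open LeadBpa

/-- Every equational axiomatization of bisimilarity over `BPA*_δ` contains infinitely many
equations in two or more variables.  The definitions are in `Pool/Agent/Lib/lead/Bpa.lean`. -/
theorem result (A : Type) [Nonempty A] (E : Set (Tm (A ⊕ ℕ) × Tm (A ⊕ ℕ)))
    (hE : ∀ t u, Tm.Der E t u ↔ Tm.Valid t u) :
    {e ∈ E | ∃ v w : ℕ, v ≠ w ∧ (Tm.Occ (.inr v) e.1 ∨ Tm.Occ (.inr v) e.2) ∧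
      (Tm.Occ (.inr w) e.1 ∨ Tm.Occ (.inr w) e.2)}.Infinite :=
  Tm.main E hE

end Pool.Agent.Results.MP_f6b51f_lc.Positive
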